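import Pool.Agent.Q282.UZ.Fam
import Pool.Agent.Q282.UZ.Short
import Pool.Agent.Q282.UZ.Sys

/-!
# Finite generation of étale motivic cohomology and three-term bilinear systems
-/

set_option autoImplicit false

open CategoryTheory AlgebraicGeometry Pool.Agent.Y116.UV Pool.Agent.Q193.LT
  Pool.Agent.Q282.UK Pool.Agent.Q282.UZ

universe w

namespace Pool.Agent.V5helper77.FM

/-- `X` is a proper regular arithmetic scheme. -/
structure IsProperRegular (X : Sch ℤ) : Prop where
  proper : IsProper X.hom
  regular : ∀ x : X.left, IsRegularLocalRing (X.left.presheaf.stalk x)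

/-- The groups `H^i(X)` are finitely generated for all `i` in the set `I`. -/
def FinGen (H : ℤ → Sch ℤ → ModuleCat.{w} ℤ) (I : Set ℤ) (X : Sch ℤ) : Prop :=
  ∀ i ∈ I, Module.Finite ℤ (H i X)

/-- The known properties of the étale motivic cohomology groups `H i X = H^i(X_et, ℤ^c(n))` of arithmetic
schemes, for a fixed integer `n < 0`.

* `loc` (Geisser): invariance under isomorphisms; the long exact sequences
  `⋯ → H^i(Z) → H^i(X) → H^i(U) → H^(i+1)(Z) → ⋯` for a closed subscheme `Z` of `X` and its
  complement `U`; for an algebra `B` of finite type over `ℤ` the group `H^i(Spec B)` is a direct factor of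
  `H^(i-1)(Spec B[t, t⁻¹])` (by the residue at `t = 0`; the section is the product with the unit `t`);
* `transfer`: for finite flat surjective morphisms `V → U` of integral arithmetic schemes, the push
  forward after the pull-back is the multiplication by the degree;
* `torsion`: the elements killed by an integer `d ≥ 1` form a finitely generated group (it is a quotient of
  `H^(i-1)(X_et, ℤ^c/d(n))`, which is finite);
* `range` (Geisser): for proper regular `X` finite generation of `H^i` for `i ≤ -2n + 1` implies finite
  generation for all `i`. -/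
structure IsEtaleMotivic (n : ℤ) (H : ℤ → Sch ℤ → ModuleCat.{w} ℤ) : Prop where
  loc : IsLocal True H (Equiv.addRight 1) (Equiv.subRight 1)
  transfer : HasTransfer H
  torsion : TorsionFinite H
  range : ∀ X : Sch ℤ, IsProperRegular X → FinGen H {i | i ≤ -2 * n + 1} X → FinGen H Set.univ X

variable {n : ℤ} {H : ℤ → Sch ℤ → ModuleCat.{w} ℤ}

lemma finGen_univ (X : Sch ℤ) : FinGen H Set.univ X ↔ ∀ i, Module.Finite ℤ (H i X) :=
  ⟨fun h i => h i trivial, fun h i _ => h i⟩

lemma clo_finGen (h : IsEtaleMotivic n H) : Clo True (FinGen H Set.univ) := by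
  have h1 := clo_class h.loc serre_finite
  have h2 : FinGen H Set.univ = InClass H (fun M => Module.Finite ℤ M) := by
    funext X
    exact propext (finGen_univ X)
  rw [h2]
  exact h1

lemma alt_finGen (h : IsEtaleMotivic n H) : AltClosed (FinGen H Set.univ) := by
  have h1 := alt_finite h.loc h.transfer h.torsion
  have h2 : FinGen H Set.univ = fun X => ∀ i, Module.Finite ℤ (H i X) := by
    funext X
    exact propext (finGen_univ X)
  rw [h2]
  exact h1

theorem main (hA : Alterations fun X => ∀ x : X.left, IsRegularLocalRing (X.left.presheaf.stalk x))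
    (h : IsEtaleMotivic n H) :
    ((∀ X : Sch ℤ, IsProperRegular X → FinGen H {i | i ≤ -2 * n + 1} X) ↔
        ForThreeTerms (FinGen H Set.univ)) ∧
      ((∀ X : Sch ℤ, FT True X → FinGen H Set.univ X) ↔ ForThreeTerms (FinGen H Set.univ)) := by
  have h1 : (∀ X : Sch ℤ, FT True X → FinGen H Set.univ X) ↔ ForThreeTerms (FinGen H Set.univ) :=
    three_iff short_int (clo_finGen h)
  refine ⟨⟨fun h2 => h1.mp ?_, fun h2 X hX => ?_⟩, h1⟩
  · exact hA _ (alt_finGen h) fun X _ hp hr => h.range X ⟨hp, hr⟩ (h2 X ⟨hp, hr⟩)
  · have hp := hX.proper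
    have h3 := h1.mpr h2 X ⟨inferInstance, inferInstance, fun _ => inferInstance⟩
    exact fun i _ => h3 i trivial

end Pool.Agent.V5helper77.FM
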